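import Pool.Agent.Helper50.MB.Goals

/-!
# Project MB (MP_fda85d_co): packet TRI, replacing three steps of one involution
-/

set_option autoImplicit false

namespace Pool.Agent.Helper33.MB

/-- A nonempty set which is closed under both steps is everything. -/
theorem all_of_closed {Y : Type} {a r : Y → Y}
    (hconn : ∀ x y, Relation.ReflTransGen (fun s t => t = a s ∨ t = r s) x y) {D : Set Y}
    (ha : ∀ z ∈ D, a z ∈ D) (hr : ∀ z ∈ D, r z ∈ D) {x : Y} (hx : x ∈ D) (y : Y) : y ∈ D := by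
  have h := hconn x y
  induction h with
  | refl => exact hx
  | tail _ hst ih =>
    rcases hst with h1 | h1
    · rw [h1]
      exact ha _ ih
    · rw [h1]
      exact hr _ ih

/-- If the steps `a`, `ρ` do not connect everything then there is a closed set which contains exactly
one of the points `e1`, `e2`, `e3`. -/
theorem split {Y : Type} {a r ρ : Y → Y} {S : Set Y} {e1 e2 e3 : Y}
    (ha2 : ∀ y, a (a y) = y) (hρ2 : ∀ y, ρ (ρ y) = y)
    (hconn : ∀ x y, Relation.ReflTransGen (fun s t => t = a s ∨ t = r s) x y)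
    (hout : ∀ y, y ∉ S → ρ y = r y)
    (hS : ∀ y ∈ S, y = e1 ∨ y = e2 ∨ y = e3 ∨ y = ρ e1 ∨ y = ρ e2 ∨ y = ρ e3)
    (hn : ¬∀ x y, Relation.ReflTransGen (fun s t => t = a s ∨ t = ρ s) x y) :
    ∃ D : Set Y, (∀ z ∈ D, a z ∈ D) ∧ (∀ z ∈ D, ρ z ∈ D) ∧
      ((e1 ∈ D ∧ e2 ∉ D ∧ e3 ∉ D) ∨ (e1 ∉ D ∧ e2 ∈ D ∧ e3 ∉ D) ∨
        (e1 ∉ D ∧ e2 ∉ D ∧ e3 ∈ D)) := by
  have key : ∀ D : Set Y, (∀ z ∈ D, a z ∈ D) → (∀ z ∈ D, ρ z ∈ D) → (∃ x, x ∈ D) →
      e1 ∈ D ∨ e2 ∈ D ∨ e3 ∈ D := by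
    rintro D h1 h2 ⟨x, hx⟩
    by_contra hcon
    push Not at hcon
    obtain ⟨c1, c2, c3⟩ := hcon
    have hρ : ∀ e, e ∉ D → ρ e ∉ D := by
      intro e he h
      apply he
      rw [← hρ2 e]
      exact h2 _ h
    refine c1 (all_of_closed hconn h1 ?_ hx e1)
    intro z hz
    have hzS : z ∉ S := by
      intro hzS
      rcases hS z hzS with h | h | h | h | h | h <;> rw [h] at hz
      · exact c1 hz
      · exact c2 hz
      · exact c3 hz
      · exact hρ _ c1 hz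
      · exact hρ _ c2 hz
      · exact hρ _ c3 hz
    rw [← hout z hzS]
    exact h2 z hz
  push Not at hn
  obtain ⟨x, y, hxy⟩ := hn
  set C : Set Y := {z | Relation.ReflTransGen (fun s t => t = a s ∨ t = ρ s) x z} with hC
  have c1 : ∀ z ∈ C, a z ∈ C := fun z hz => Relation.ReflTransGen.tail hz (Or.inl rfl)
  have c2 : ∀ z ∈ C, ρ z ∈ C := fun z hz => Relation.ReflTransGen.tail hz (Or.inr rfl)
  have c3 : ∀ z ∈ Cᶜ, a z ∈ Cᶜ := by
    intro z hz h
    apply hz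
    rw [← ha2 z]
    exact c1 _ h
  have c4 : ∀ z ∈ Cᶜ, ρ z ∈ Cᶜ := by
    intro z hz h
    apply hz
    rw [← hρ2 z]
    exact c2 _ h
  have k1 := key C c1 c2 ⟨x, Relation.ReflTransGen.refl⟩
  have k2 := key Cᶜ c3 c4 ⟨y, hxy⟩
  simp only [Set.mem_compl_iff] at k2
  by_cases h1 : e1 ∈ C <;> by_cases h2 : e2 ∈ C <;> by_cases h3 : e3 ∈ C
  · tauto
  · exact ⟨Cᶜ, c3, c4, Or.inr (Or.inr ⟨fun h => h h1, fun h => h h2, h3⟩)⟩
  · exact ⟨Cᶜ, c3, c4, Or.inr (Or.inl ⟨fun h => h h1, h2, fun h => h h3⟩)⟩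
  · exact ⟨C, c1, c2, Or.inl ⟨h1, h2, h3⟩⟩
  · exact ⟨Cᶜ, c3, c4, Or.inl ⟨h1, fun h => h h2, fun h => h h3⟩⟩
  · exact ⟨C, c1, c2, Or.inr (Or.inl ⟨h1, h2, h3⟩)⟩
  · exact ⟨C, c1, c2, Or.inr (Or.inr ⟨h1, h2, h3⟩)⟩
  · tauto

/-- A closed set does not meet `S` in exactly one point. -/
theorem not_one {Y : Type} [Finite Y] {a r : Y → Y} {S : Set Y}
    (ha2 : ∀ y, a (a y) = y) (hr2 : ∀ y, r (r y) = y) (ha1 : ∀ y, a y ≠ y) (hr1 : ∀ y, r y ≠ y)
    (hS : ∀ y ∈ S, r y ∈ S) {D : Set Y} (ha : ∀ z ∈ D, a z ∈ D) (hr : ∀ z ∈ D, z ∉ S → r z ∈ D)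
    (x : Y) : D ∩ S ≠ {x} := by
  classical
  intro hx
  obtain ⟨_⟩ := nonempty_fintype Y
  have hS' : ∀ y, y ∉ S → r y ∉ S := by
    intro y hy h
    apply hy
    rw [← hr2 y]
    exact hS _ h
  have one2 : (1 : ZMod 2) + 1 = 0 := by decide
  have h1 : ∑ _z ∈ Finset.univ.filter (fun z => z ∈ D), (1 : ZMod 2) = 0 := by
    refine Finset.sum_involution (fun z _ => a z) (fun z _ => one2) (fun z _ _ => ha1 z) ?_
      (fun z _ => ha2 z)
    intro z hz
    rw [Finset.mem_filter] at hz ⊢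
    exact ⟨Finset.mem_univ _, ha z hz.2⟩
  have h2 : ∑ _z ∈ (Finset.univ.filter (fun z => z ∈ D)).filter (fun z => z ∉ S),
      (1 : ZMod 2) = 0 := by
    refine Finset.sum_involution (fun z _ => r z) (fun z _ => one2) (fun z _ _ => hr1 z) ?_
      (fun z _ => hr2 z)
    intro z hz
    rw [Finset.mem_filter, Finset.mem_filter] at hz ⊢
    exact ⟨⟨Finset.mem_univ _, hr z hz.1.2 hz.2⟩, hS' z hz.2⟩
  have h3 := Finset.sum_filter_add_sum_filter_not (Finset.univ.filter (fun z => z ∈ D))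
    (fun z => z ∈ S) (fun _ => (1 : ZMod 2))
  rw [h1, h2, add_zero] at h3
  have h4 : (Finset.univ.filter (fun z => z ∈ D)).filter (fun z => z ∈ S) = {x} := by
    ext z
    rw [Finset.mem_filter, Finset.mem_filter, Finset.mem_singleton]
    constructor
    · rintro ⟨⟨_, h5⟩, h6⟩
      have : z ∈ D ∩ S := ⟨h5, h6⟩
      rw [hx] at this
      exact this
    · intro hz
      have : z ∈ D ∩ S := by
        rw [hx]
        exact hz
      exact ⟨⟨Finset.mem_univ _, this.1⟩, this.2⟩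
  rw [h4, Finset.sum_singleton] at h3
  exact absurd h3 (by decide)

/-- **TRI**. -/
theorem goalTRI : Pool.Agent.Helper50.MB.TRI := by
  intro Y _ a r r' r'' ε e1 e2 e3 ha2 hr2 hεa hεr hε1 hε2 hε3 h12 h13 h23 hconn hr' p1 p2 p3 p4 p5 p6
    hr'' q1 q2 q3 q4 q5 q6
  have ha1 : ∀ y, a y ≠ y := by
    intro y h
    have := hεa y
    rw [h] at this
    simp at this
  have hr1 : ∀ y, r y ≠ y := by
    intro y h
    have := hεr y
    rw [h] at this
    simp at this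
  set S : Set Y := {y | y = e1 ∨ y = e2 ∨ y = e3 ∨ y = r e1 ∨ y = r e2 ∨ y = r e3} with hSdef
  have hSr : ∀ y ∈ S, r y ∈ S := by
    rintro y (h | h | h | h | h | h) <;> subst h
    · exact Or.inr (Or.inr (Or.inr (Or.inl rfl)))
    · exact Or.inr (Or.inr (Or.inr (Or.inr (Or.inl rfl))))
    · exact Or.inr (Or.inr (Or.inr (Or.inr (Or.inr rfl))))
    · exact Or.inl (hr2 _)
    · exact Or.inr (Or.inl (hr2 _))
    · exact Or.inr (Or.inr (Or.inl (hr2 _)))
  have hSr' : ∀ y, y ∉ S → r y ∉ S := by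
    intro y hy h
    apply hy
    rw [← hr2 y]
    exact hSr _ h
  have out' : ∀ y, y ∉ S → r' y = r y := by
    intro y hy
    have hy' : ¬(y = e1 ∨ y = e2 ∨ y = e3 ∨ y = r e1 ∨ y = r e2 ∨ y = r e3) := hy
    push Not at hy'
    exact hr' y hy'.1 hy'.2.1 hy'.2.2.1 hy'.2.2.2.1 hy'.2.2.2.2.1 hy'.2.2.2.2.2
  have out'' : ∀ y, y ∉ S → r'' y = r y := by
    intro y hy
    have hy' : ¬(y = e1 ∨ y = e2 ∨ y = e3 ∨ y = r e1 ∨ y = r e2 ∨ y = r e3) := hy
    push Not at hy'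
    exact hr'' y hy'.1 hy'.2.1 hy'.2.2.1 hy'.2.2.2.1 hy'.2.2.2.2.1 hy'.2.2.2.2.2
  have inv' : ∀ y, r' (r' y) = y := by
    intro y
    by_cases hy : y ∈ S
    · rcases hy with h | h | h | h | h | h <;> subst h
      · rw [p1, p2]
      · rw [p3, p4]
      · rw [p5, p6]
      · rw [p6, p5]
      · rw [p2, p1]
      · rw [p4, p3]
    · rw [out' y hy, out' _ (hSr' y hy), hr2]
  have inv'' : ∀ y, r'' (r'' y) = y := by
    intro y
    by_cases hy : y ∈ S
    · rcases hy with h | h | h | h | h | h <;> subst h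
      · rw [q1, q2]
      · rw [q3, q4]
      · rw [q5, q6]
      · rw [q4, q3]
      · rw [q6, q5]
      · rw [q2, q1]
    · rw [out'' y hy, out'' _ (hSr' y hy), hr2]
  by_contra hcon
  rw [not_or] at hcon
  obtain ⟨D, hDa, hDr, hD⟩ := split (S := S) (e1 := e1) (e2 := e2) (e3 := e3) ha2 inv' hconn out'
    (by
      rintro y (h | h | h | h | h | h)
      · exact Or.inl h
      · exact Or.inr (Or.inl h)
      · exact Or.inr (Or.inr (Or.inl h))
      · exact Or.inr (Or.inr (Or.inr (Or.inr (Or.inr (h.trans p5.symm)))))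
      · exact Or.inr (Or.inr (Or.inr (Or.inl (h.trans p1.symm))))
      · exact Or.inr (Or.inr (Or.inr (Or.inr (Or.inl (h.trans p3.symm)))))) hcon.1
  obtain ⟨D', hDa', hDr', hD'⟩ := split (S := S) (e1 := e1) (e2 := e2) (e3 := e3) ha2 inv'' hconn
    out''
    (by
      rintro y (h | h | h | h | h | h)
      · exact Or.inl h
      · exact Or.inr (Or.inl h)
      · exact Or.inr (Or.inr (Or.inl h))
      · exact Or.inr (Or.inr (Or.inr (Or.inr (Or.inl (h.trans q3.symm)))))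
      · exact Or.inr (Or.inr (Or.inr (Or.inr (Or.inr (h.trans q5.symm)))))
      · exact Or.inr (Or.inr (Or.inr (Or.inl (h.trans q1.symm))))) hcon.2
  -- memberships
  have m2 : r e2 ∈ D ↔ e1 ∈ D :=
    ⟨fun h => by have := hDr _ h; rwa [p2] at this, fun h => by have := hDr _ h; rwa [p1] at this⟩
  have m3 : r e3 ∈ D ↔ e2 ∈ D :=
    ⟨fun h => by have := hDr _ h; rwa [p4] at this, fun h => by have := hDr _ h; rwa [p3] at this⟩
  have m1 : r e1 ∈ D ↔ e3 ∈ D :=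
    ⟨fun h => by have := hDr _ h; rwa [p6] at this, fun h => by have := hDr _ h; rwa [p5] at this⟩
  have n3 : r e3 ∈ D' ↔ e1 ∈ D' :=
    ⟨fun h => by have := hDr' _ h; rwa [q2] at this, fun h => by have := hDr' _ h; rwa [q1] at this⟩
  have n1 : r e1 ∈ D' ↔ e2 ∈ D' :=
    ⟨fun h => by have := hDr' _ h; rwa [q4] at this, fun h => by have := hDr' _ h; rwa [q3] at this⟩
  have n2 : r e2 ∈ D' ↔ e3 ∈ D' :=
    ⟨fun h => by have := hDr' _ h; rwa [q6] at this, fun h => by have := hDr' _ h; rwa [q5] at this⟩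
  -- the intersection
  have hno : ∀ x, (D ∩ D') ∩ S ≠ {x} := by
    intro x
    refine not_one (D := D ∩ D') ha2 hr2 ha1 hr1 hSr
      (fun z hz => ⟨hDa z hz.1, hDa' z hz.2⟩) ?_ x
    rintro z ⟨hz, hz'⟩ hzS
    refine ⟨?_, ?_⟩
    · rw [← out' z hzS]
      exact hDr z hz
    · rw [← out'' z hzS]
      exact hDr' z hz'
  -- the union
  have hun : ¬((r e1 ∈ D ∪ D' ↔ e1 ∈ D ∪ D') ∧ (r e2 ∈ D ∪ D' ↔ e2 ∈ D ∪ D') ∧
      (r e3 ∈ D ∪ D' ↔ e3 ∈ D ∪ D') ∧ (∃ x, x ∈ D ∪ D') ∧ ∃ y, y ∉ D ∪ D') := by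
    rintro ⟨u1, u2, u3, ⟨x, hx⟩, y, hy⟩
    refine hy (all_of_closed hconn ?_ ?_ hx y)
    · rintro z (hz | hz)
      · exact Or.inl (hDa z hz)
      · exact Or.inr (hDa' z hz)
    · intro z hz
      by_cases hzS : z ∈ S
      · rcases hzS with h | h | h | h | h | h <;> subst h
        · exact u1.2 hz
        · exact u2.2 hz
        · exact u3.2 hz
        · rw [hr2]
          exact u1.1 hz
        · rw [hr2]
          exact u2.1 hz
        · rw [hr2]
          exact u3.1 hz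
      · rcases hz with hz | hz
        · left
          rw [← out' z hzS]
          exact hDr z hz
        · right
          rw [← out'' z hzS]
          exact hDr' z hz
  have single : ∀ x ∈ S, x ∈ D → x ∈ D' → (∀ y ∈ S, y ∈ D → y ∈ D' → y = x) → False := by
    intro x hxS hx hx' h
    refine hno x ?_
    ext y
    constructor
    · rintro ⟨⟨h1, h2⟩, h3⟩
      exact h y h3 h1 h2
    · rintro rfl
      exact ⟨⟨hx, hx'⟩, hxS⟩
  have s1 : e1 ∈ S := Or.inl rfl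
  have s2 : e2 ∈ S := Or.inr (Or.inl rfl)
  have s3 : e3 ∈ S := Or.inr (Or.inr (Or.inl rfl))
  simp only [Set.mem_union, m1, m2, m3, n1, n2, n3] at hun
  have x1 : e3 ∉ D → r e1 ∉ D := fun h h' => h (m1.1 h')
  have x2 : e1 ∉ D → r e2 ∉ D := fun h h' => h (m2.1 h')
  have x3 : e2 ∉ D → r e3 ∉ D := fun h h' => h (m3.1 h')
  have y1 : e2 ∉ D' → r e1 ∉ D' := fun h h' => h (n1.1 h')
  have y2 : e3 ∉ D' → r e2 ∉ D' := fun h h' => h (n2.1 h')
  have y3 : e1 ∉ D' → r e3 ∉ D' := fun h h' => h (n3.1 h')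
  rcases hD with ⟨d1, d2, d3⟩ | ⟨d1, d2, d3⟩ | ⟨d1, d2, d3⟩
  · have g1 := x1 d3
    have g3 := x3 d2
    rcases hD' with ⟨f1, f2, f3⟩ | ⟨f1, f2, f3⟩ | ⟨f1, f2, f3⟩
    · have k1 := y1 f2
      have k2 := y2 f3
      refine single e1 s1 d1 f1 ?_
      rintro y (h | h | h | h | h | h) hy hy' <;> rw [h] at hy hy' ⊢ <;>
        first | exact absurd hy (by assumption) | exact absurd hy' (by assumption)
    · refine hun ⟨?_, ?_, ?_, ⟨e1, Or.inl d1⟩, ⟨e3, ?_⟩⟩ <;> simp [d1, d2, d3, f1, f2, f3]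
    · have k1 := y1 f2
      have k3 := y3 f1
      refine single (r e2) (hSr _ s2) (m2.2 d1) (n2.2 f3) ?_
      rintro y (h | h | h | h | h | h) hy hy' <;> rw [h] at hy hy' ⊢ <;>
        first | exact absurd hy (by assumption) | exact absurd hy' (by assumption)
  · have g1 := x1 d3
    have g2 := x2 d1
    rcases hD' with ⟨f1, f2, f3⟩ | ⟨f1, f2, f3⟩ | ⟨f1, f2, f3⟩
    · have k1 := y1 f2
      have k2 := y2 f3
      refine single (r e3) (hSr _ s3) (m3.2 d2) (n3.2 f1) ?_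
      rintro y (h | h | h | h | h | h) hy hy' <;> rw [h] at hy hy' ⊢ <;>
        first | exact absurd hy (by assumption) | exact absurd hy' (by assumption)
    · have k2 := y2 f3
      have k3 := y3 f1
      refine single e2 s2 d2 f2 ?_
      rintro y (h | h | h | h | h | h) hy hy' <;> rw [h] at hy hy' ⊢ <;>
        first | exact absurd hy (by assumption) | exact absurd hy' (by assumption)
    · refine hun ⟨?_, ?_, ?_, ⟨e2, Or.inl d2⟩, ⟨e1, ?_⟩⟩ <;> simp [d1, d2, d3, f1, f2, f3]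
  · have g2 := x2 d1
    have g3 := x3 d2
    rcases hD' with ⟨f1, f2, f3⟩ | ⟨f1, f2, f3⟩ | ⟨f1, f2, f3⟩
    · refine hun ⟨?_, ?_, ?_, ⟨e3, Or.inl d3⟩, ⟨e2, ?_⟩⟩ <;> simp [d1, d2, d3, f1, f2, f3]
    · have k2 := y2 f3
      have k3 := y3 f1
      refine single (r e1) (hSr _ s1) (m1.2 d3) (n1.2 f2) ?_
      rintro y (h | h | h | h | h | h) hy hy' <;> rw [h] at hy hy' ⊢ <;>
        first | exact absurd hy (by assumption) | exact absurd hy' (by assumption)
    · have k1 := y1 f2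
      have k3 := y3 f1
      refine single e3 s3 d3 f3 ?_
      rintro y (h | h | h | h | h | h) hy hy' <;> rw [h] at hy hy' ⊢ <;>
        first | exact absurd hy (by assumption) | exact absurd hy' (by assumption)

end Pool.Agent.Helper33.MB
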